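import Pool.Agent.X315.LS.HexHom

set_option autoImplicit false

/-!
# Surgeries on lifted links in the cyclic branched covers of the trefoil of degree at most 5

`K` is the trefoil knot, as the pretzel knot `P(1, 1, 1)`, and `C 0`, `C 1`, `C 2` are unknotted
circles around the two strands of its three columns.  The linking number of `C j` and `K` is
zero, so the preimage `L` of the three circles in the `n`-fold cyclic branched cover of `K` has
`3 n` components.  Let `1 ≤ n ≤ 5` (then the branched cover is a spherical manifold, for `n = 5`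
the Poincaré homology sphere) and let `M` be the result of Dehn surgery on `L` such that
`meridian ^ b j i = longitude ^ a j i` on the component number `i` over `C j`, with `a j i ≥ 0`
and `b j i ≥ 1`; the slopes on different components are independent of each other.  Then every
homomorphism from the fundamental group of `M` to a left-orderable group is trivial.  In
particular this fundamental group is not left-orderable.

If `b j i = 1` and `a j i = p j` for all `i` then `M` is the `n`-fold cyclic branched cover of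
`P(2 p 0 + 1, 2 p 1 + 1, 2 p 2 + 1)`.
-/

namespace Pool.Agent.Results.MP_3d425c_gt.TrefoilLiftSurgeries

open Pool.Agent.TH821.Hex Pool.Agent.X315.LS

/-- A nontrivial group is left-orderable if it carries a strict total order that is invariant
under left multiplication. -/
def LeftOrderable (G : Type*) [Group G] : Prop :=
  Nontrivial G ∧ ∃ lt : G → G → Prop, IsStrictTotalOrder G lt ∧
    ∀ a b c : G, lt a b ↔ lt (c * a) (c * b)

/-- The free group on six meridians of the link `K ∪ C 0 ∪ C 1 ∪ C 2`: `Sum.inl j` for an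
arc of `K`, and `Sum.inr j` for the circle `C j`. -/
abbrev Free : Type := FreeGroup (Fin 3 ⊕ Fin 3)

/-- The meridian `a j` of the arc of `K` at the top of the diagram that joins the top right end
of column `j - 1` to the top left end of column `j`, oriented into column `j`. -/
def arc (j : Fin 3) : Free := FreeGroup.of (Sum.inl j)

/-- The meridian of the front part of the circle `C j`. -/
def circle (j : Fin 3) : Free := FreeGroup.of (Sum.inr j)

/-- The product of the downward meridians of the two strands around which `C j` goes; it is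
a longitude of `C j`, which bounds a disc that meets `K` in two points. -/
def longitude (j : Fin 3) : Free := arc j * (arc (j + 1))⁻¹

/-- One crossing of a vertical twist region: if the two strands, both oriented downwards, have
meridians `(x, y)` (left, right) above the crossing, then they have meridians `(y, y⁻¹ x y)`
below it.  The inverse is the crossing of the other handedness. -/
def crossing (G : Type*) [Group G] : Equiv.Perm (G × G) where
  toFun w := (w.2, w.2⁻¹ * w.1 * w.2)
  invFun w := (w.1 * w.2 * w.1⁻¹, w.1)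
  left_inv w := by ext <;> simp [mul_assoc]
  right_inv w := by ext <;> simp [mul_assoc]

/-- The downward meridians of the two strands of column `j` just above the crossing of this
column: the strands first pass under the front part of the circle `C j`. -/
def strands (j : Fin 3) : Free × Free :=
  ((circle j)⁻¹ * arc j * circle j, (circle j)⁻¹ * (arc (j + 1))⁻¹ * circle j)

/-- The downward meridians of the two strands at the bottom of column `j`, which has one
crossing. -/
def bottom (j : Fin 3) : Free × Free := crossing Free (strands j)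

/-- The bottom right end of column `j` is joined to the bottom left end of column `j + 1`. -/
def relator (j : Fin 3) : Free := (bottom j).2 * (bottom (j + 1)).1

/-- The relators of the group of the link `K ∪ C 0 ∪ C 1 ∪ C 2`: the ends of the columns are
joined, and the meridian and the longitude of `C j` commute. -/
def linkRelators : Set Free :=
  Set.range relator ∪ Set.range fun j => circle j * longitude j * (longitude j * circle j)⁻¹

/-- The quotient of the group of the link by the `n`-th power of the meridian `a 0` of `K`. -/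
def OrbifoldGroup (n : ℕ) : Type := PresentedGroup (linkRelators ∪ {arc 0 ^ n})

instance (n : ℕ) : Group (OrbifoldGroup n) :=
  inferInstanceAs (Group (PresentedGroup (linkRelators ∪ {arc 0 ^ n})))

/-- The degree of the generators: `1` for the meridians of `K` and `0` for those of `C j`. -/
def genDegree (n : ℕ) : Fin 3 ⊕ Fin 3 → Multiplicative (ZMod n)
  | Sum.inl _ => Multiplicative.ofAdd 1
  | Sum.inr _ => 1

theorem degree_arc (n : ℕ) (j : Fin 3) :
    FreeGroup.lift (genDegree n) (arc j) = Multiplicative.ofAdd 1 := by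
  unfold arc
  rw [FreeGroup.lift_apply_of]
  rfl

theorem degree_circle (n : ℕ) (j : Fin 3) : FreeGroup.lift (genDegree n) (circle j) = 1 := by
  unfold circle
  rw [FreeGroup.lift_apply_of]
  rfl

theorem degree_longitude (n : ℕ) (j : Fin 3) :
    FreeGroup.lift (genDegree n) (longitude j) = 1 := by
  unfold longitude
  rw [map_mul, map_inv, degree_arc, degree_arc]
  exact mul_inv_cancel _

theorem relator_eq (j : Fin 3) : relator j =
    (((circle j)⁻¹ * (arc (j + 1))⁻¹ * circle j)⁻¹ * ((circle j)⁻¹ * arc j * circle j) *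
      ((circle j)⁻¹ * (arc (j + 1))⁻¹ * circle j)) *
      ((circle (j + 1))⁻¹ * (arc (j + 1 + 1))⁻¹ * circle (j + 1)) := rfl

theorem degree_rel (n : ℕ) : ∀ w ∈ linkRelators ∪ {arc 0 ^ n},
    FreeGroup.lift (genDegree n) w = 1 := by
  rintro w ((⟨j, rfl⟩ | ⟨j, rfl⟩) | rfl)
  · rw [relator_eq]
    simp [degree_arc, degree_circle]
  · simp [degree_longitude, degree_circle]
  · rw [map_pow, degree_arc, ← ofAdd_nsmul]
    simp

/-- The homomorphism of the orbifold group to `Z/n` that sends the meridians `a j` of `K` to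
`1` and the meridians of the circles `C j` to `0`. -/
def degree (n : ℕ) : OrbifoldGroup n →* Multiplicative (ZMod n) :=
  PresentedGroup.toGroup (degree_rel n)

/-- The fundamental group of the complement of the preimage `L` of the three circles in the
`n`-fold cyclic branched cover of `K`: the kernel of the homomorphism to `Z/n` from the quotient
of the group of the link by the `n`-th power of a meridian of `K`. -/
def ComplementGroup (n : ℕ) : Type := (degree n).ker

instance (n : ℕ) : Group (ComplementGroup n) := inferInstanceAs (Group (degree n).ker)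

/-- The image in the orbifold group of an element of the free group. -/
def cls (n : ℕ) (w : Free) : OrbifoldGroup n := PresentedGroup.mk _ w

theorem cls_mem (n : ℕ) {w : Free} (hw : FreeGroup.lift (genDegree n) w = 1) (i : ZMod n) :
    cls n (arc 0) ^ i.val * cls n w * (cls n (arc 0) ^ i.val)⁻¹ ∈ (degree n).ker := by
  have h1 : degree n (cls n w) = FreeGroup.lift (genDegree n) w := rfl
  show degree n _ = 1
  rw [map_mul, map_mul, h1, hw, map_inv]
  simp

/-- The meridian of the component number `i` of `L` over `C j`: the conjugate of the meridian of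
`C j` by the `i`-th power of the meridian `a 0` of `K`. -/
def meridianLift (n : ℕ) (j : Fin 3) (i : ZMod n) : ComplementGroup n :=
  ⟨cls n (arc 0) ^ i.val * cls n (circle j) * (cls n (arc 0) ^ i.val)⁻¹,
    cls_mem n (degree_circle n j) i⟩

/-- The longitude of the component number `i` of `L` over `C j`: the conjugate of the longitude
of `C j` by the `i`-th power of the meridian `a 0` of `K`. -/
def longitudeLift (n : ℕ) (j : Fin 3) (i : ZMod n) : ComplementGroup n :=
  ⟨cls n (arc 0) ^ i.val * cls n (longitude j) * (cls n (arc 0) ^ i.val)⁻¹,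
    cls_mem n (degree_longitude n j) i⟩

/-- The relations `meridian ^ b j i = longitude ^ a j i` for the component number `i` of `L`
over `C j`. -/
def fillRelators (n : ℕ) (a b : Fin 3 → ZMod n → ℕ) : Set (ComplementGroup n) :=
  Set.range fun w : Fin 3 × ZMod n =>
    meridianLift n w.1 w.2 ^ b w.1 w.2 * (longitudeLift n w.1 w.2 ^ a w.1 w.2)⁻¹

/-- The fundamental group of the result of Dehn surgery on `L`: on the component number `i` over
`C j` the slope is determined by `meridian ^ b j i = longitude ^ a j i`, for coprime `a j i` and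
`b j i`. -/
def SurgeryGroup (n : ℕ) (a b : Fin 3 → ZMod n → ℕ) : Type :=
  ComplementGroup n ⧸ Subgroup.normalClosure (fillRelators n a b)

instance (n : ℕ) (a b : Fin 3 → ZMod n → ℕ) : Group (SurgeryGroup n a b) :=
  inferInstanceAs (Group (ComplementGroup n ⧸ Subgroup.normalClosure (fillRelators n a b)))

/-- `G` has no nontrivial homomorphism to a left-orderable group; in particular it is not
left-orderable. -/
theorem not_lo {G : Type} [Group G]
    (h : ∀ (H : Type) [Group H], LeftOrderable H → ∀ f : G →* H, ∀ g, f g = 1) :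
    ¬ LeftOrderable G := by
  intro hG
  obtain ⟨a, b, hab⟩ := hG.1
  have key := h G hG (MonoidHom.id _)
  exact hab ((key a).trans (key b).symm)

theorem lo_order {H : Type*} [Group H] (hH : LeftOrderable H) :
    ∃ _ : LinearOrder H, ∀ a b c : H, a ≤ b ↔ c * a ≤ c * b := by
  classical
  obtain ⟨_, lt, hlt, hinv⟩ := hH
  refine ⟨linearOrderOfSTO lt, ?_⟩
  intro a b c
  show (a = b ∨ lt a b) ↔ (c * a = c * b ∨ lt (c * a) (c * b))
  rw [mul_right_inj, ← hinv]

theorem relA_aux {G : Type*} [Group G] (s X F E c : G) (hF : X * F = F * X)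
    (R : ((F⁻¹ * (X⁻¹ * s)⁻¹ * F)⁻¹ * (F⁻¹ * s * F) * (F⁻¹ * (X⁻¹ * s)⁻¹ * F)) *
      (E⁻¹ * c⁻¹ * E) = 1) :
    s * (F * X * E⁻¹) * s⁻¹ = F * X * E⁻¹ * (c * s⁻¹) := by
  have h1 : ((F⁻¹ * (X⁻¹ * s)⁻¹ * F)⁻¹ * (F⁻¹ * s * F) * (F⁻¹ * (X⁻¹ * s)⁻¹ * F)) =
      (F * X)⁻¹ * s * (F * X) := by
    calc _ = (X * F)⁻¹ * s * (X * F) := by group
      _ = _ := by rw [hF]
  rw [h1] at R
  calc s * (F * X * E⁻¹) * s⁻¹ = (F * X) * ((F * X)⁻¹ * s * (F * X) * (E⁻¹ * c⁻¹ * E)) *
        E⁻¹ * c * s⁻¹ := by group
    _ = _ := by rw [R]; group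

theorem relB_aux {G : Type*} [Group G] (s X V E K c : G) (hE : V * E = E * V)
    (hc : X⁻¹ * s = V * c)
    (R : ((E⁻¹ * c⁻¹ * E)⁻¹ * (E⁻¹ * (X⁻¹ * s) * E) * (E⁻¹ * c⁻¹ * E)) *
      (K⁻¹ * s⁻¹ * K) = 1) :
    s * (E * V * K⁻¹) * s⁻¹ = X * (E * V * K⁻¹) := by
  have h1 : ((E⁻¹ * c⁻¹ * E)⁻¹ * (E⁻¹ * (X⁻¹ * s) * E) * (E⁻¹ * c⁻¹ * E)) =
      (E * V)⁻¹ * (X⁻¹ * s) * (E * V) := by
    have h2 : c = V⁻¹ * (X⁻¹ * s) := by rw [hc]; group
    calc _ = E⁻¹ * (c * (X⁻¹ * s) * c⁻¹) * E := by group
      _ = E⁻¹ * (V⁻¹ * (X⁻¹ * s) * V) * E := by rw [h2]; group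
      _ = (V * E)⁻¹ * (X⁻¹ * s) * (V * E) := by group
      _ = _ := by rw [hE]
  rw [h1] at R
  calc s * (E * V * K⁻¹) * s⁻¹ = X * (E * V) * ((E * V)⁻¹ * (X⁻¹ * s) * (E * V) *
        (K⁻¹ * s⁻¹ * K)) * K⁻¹ := by group
    _ = _ := by rw [R]; group

theorem surgery_trivial {n : ℕ} (hn : 0 < n) (hn5 : n ≤ 5) (a b : Fin 3 → ZMod n → ℕ)
    (hb : ∀ j i, 1 ≤ b j i) {H : Type*} [Group H] (hH : LeftOrderable H)
    (f : SurgeryGroup n a b →* H) (g : SurgeryGroup n a b) : f g = 1 := by
  obtain ⟨_, hinv⟩ := lo_order hH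
  set c : Fin 3 → OrbifoldGroup n := fun j => cls n (arc j) with hc
  set u : Fin 3 → OrbifoldGroup n := fun j => cls n (circle j) with hu
  set μ : Free →* OrbifoldGroup n := PresentedGroup.mk (linkRelators ∪ {arc 0 ^ n}) with hμ
  have hs : c 0 ^ n = 1 := by
    have h1 : μ (arc 0 ^ n) = 1 := PresentedGroup.one_of_mem (Or.inr rfl)
    rwa [map_pow] at h1
  have R0 : μ (relator 0) = 1 := PresentedGroup.one_of_mem (Or.inl (Or.inl ⟨0, rfl⟩))
  have R1 : μ (relator 1) = 1 := PresentedGroup.one_of_mem (Or.inl (Or.inl ⟨1, rfl⟩))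
  have RC : ∀ j, μ (circle j * longitude j * (longitude j * circle j)⁻¹) = 1 :=
    fun j => PresentedGroup.one_of_mem (Or.inl (Or.inr ⟨j, rfl⟩))
  rw [relator_eq] at R0 R1
  simp only [map_mul, map_inv] at R0 R1
  have hμa : ∀ j, μ (arc j) = c j := fun _ => rfl
  have hμF : ∀ j, μ (circle j) = u j := fun _ => rfl
  simp only [hμa, hμF] at R0 R1
  set s := c 0 with hs0
  set X := s * (c 1)⁻¹ with hX
  set V := c 1 * (c 2)⁻¹ with hV
  set W := c 2 * s⁻¹ with hW
  have f1 : c 1 = X⁻¹ * s := by rw [hX]; group
  have f2 : c 2 = (X * V)⁻¹ * s := by rw [hV, hX]; group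
  have fl0 : cls n (longitude 0) = X := by
    show μ (arc 0 * (arc 1)⁻¹) = _
    rw [map_mul, map_inv]
    rfl
  have fl1 : cls n (longitude 1) = V := by
    show μ (arc 1 * (arc 2)⁻¹) = _
    rw [map_mul, map_inv]
    rfl
  have fl2 : cls n (longitude 2) = W := by
    show μ (arc 2 * (arc 0)⁻¹) = _
    rw [map_mul, map_inv]
    rfl
  have hcomm : ∀ j, cls n (longitude j) * u j = u j * cls n (longitude j) := by
    intro j
    have h1 : u j * cls n (longitude j) * (cls n (longitude j) * u j)⁻¹ = 1 := by
      have := RC j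
      simp only [map_mul, map_inv] at this
      exact this
    exact (mul_inv_eq_one.mp h1).symm
  have c0 : X * u 0 = u 0 * X := by rw [← fl0]; exact hcomm 0
  have c1 : V * u 1 = u 1 * V := by rw [← fl1]; exact hcomm 1
  have c2 : W * u 2 = u 2 * W := by rw [← fl2]; exact hcomm 2
  have hp : X * V * W = 1 := by rw [hX, hV, hW]; group
  have A : s * (u 0 * X * (u 1)⁻¹) * s⁻¹ = u 0 * X * (u 1)⁻¹ * W := by
    have R : (((u 0)⁻¹ * (c 1)⁻¹ * u 0)⁻¹ * ((u 0)⁻¹ * s * u 0) *
        ((u 0)⁻¹ * (c 1)⁻¹ * u 0)) * ((u 1)⁻¹ * (c 2)⁻¹ * u 1) = 1 := R0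
    rw [f1] at R
    exact relA_aux s X (u 0) (u 1) (c 2) c0 R
  have B : s * (u 1 * V * (u 2)⁻¹) * s⁻¹ = X * (u 1 * V * (u 2)⁻¹) := by
    have R : (((u 1)⁻¹ * (c 2)⁻¹ * u 1)⁻¹ * ((u 1)⁻¹ * c 1 * u 1) *
        ((u 1)⁻¹ * (c 2)⁻¹ * u 1)) * ((u 2)⁻¹ * s⁻¹ * u 2) = 1 := R1
    rw [f1] at R
    exact relB_aux s X V (u 1) (u 2) (c 2) c1 (by rw [hV, f1]; group) R
  have hgen : ∀ K : Subgroup (OrbifoldGroup n), s ∈ K → X ∈ K → V ∈ K → u 0 ∈ K → u 1 ∈ K →
      u 2 ∈ K → K = ⊤ := by
    intro K h1 h2 h3 k0 k1 k2
    have key : ∀ j, (PresentedGroup.of j : OrbifoldGroup n) ∈ K := by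
      rintro (j | j)
      · fin_cases j
        · exact h1
        · show c 1 ∈ K
          rw [f1]; exact mul_mem (inv_mem h2) h1
        · show c 2 ∈ K
          rw [f2]; exact mul_mem (inv_mem (mul_mem h2 h3)) h1
      · fin_cases j
        · exact k0
        · exact k1
        · exact k2
    have h5 : Subgroup.closure (Set.range (PresentedGroup.of
        (rels := linkRelators ∪ {arc 0 ^ n}))) ≤ K := by
      refine (Subgroup.closure_le (G := OrbifoldGroup n) K).mpr ?_
      rintro _ ⟨j, rfl⟩
      exact key j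
    rw [PresentedGroup.closure_range_of] at h5
    exact eq_top_iff.mpr h5
  have da : ∀ j, degree n (c j) = Multiplicative.ofAdd 1 :=
    fun j => PresentedGroup.toGroup.of _
  have du : ∀ j, degree n (u j) = 1 := fun j => PresentedGroup.toGroup.of _
  have dX : degree n X = 1 := by
    rw [hX, map_mul, map_inv, hs0, da, da, mul_inv_cancel]
  have dV : degree n V = 1 := by
    rw [hV, map_mul, map_inv, da, da, mul_inv_cancel]
  have dW : degree n W = 1 := by
    rw [hW, map_mul, map_inv, hs0, da, da, mul_inv_cancel]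
  set π : ComplementGroup n →* SurgeryGroup n a b :=
    QuotientGroup.mk' (Subgroup.normalClosure (fillRelators n a b)) with hπ
  set φ : (degree n).ker →* H := f.comp π with hφ
  have hfill : ∀ j i, f (π (meridianLift n j i)) ^ b j i =
      f (π (longitudeLift n j i)) ^ a j i := by
    intro j i
    have h1 : π (meridianLift n j i ^ b j i * (longitudeLift n j i ^ a j i)⁻¹) = 1 :=
      (QuotientGroup.eq_one_iff (N := Subgroup.normalClosure (fillRelators n a b)) _).mpr
        (Subgroup.subset_normalClosure ⟨(j, i), rfl⟩)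
    have h4 := congrArg f h1
    rw [map_mul, map_mul, map_inv, map_inv, map_pow, map_pow, map_pow, map_pow, map_one,
      mul_inv_eq_one] at h4
    exact h4
  have hm : ∀ j i, f (π (meridianLift n j i)) = φ (ck (degree n) s i ⟨u j, du j⟩) :=
    fun _ _ => rfl
  have hl : ∀ (j : Fin 3) (i : ZMod n) (Y : OrbifoldGroup n) (dY : degree n Y = 1)
      (_ : cls n (longitude j) = Y),
      f (π (longitudeLift n j i)) = φ (ck (degree n) s i ⟨Y, dY⟩) := by
    intro j i Y dY h
    subst h
    rfl
  obtain ⟨g, rfl⟩ : ∃ g', π g' = g :=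
    QuotientGroup.mk'_surjective (Subgroup.normalClosure (fillRelators n a b)) g
  refine hex_hom hn hn5 hs hgen (degree n) (da 0) dX dV dW (du 0) (du 1) (du 2) hp c0 c1 c2 A B
    hinv φ a b hb ?_ ?_ ?_ g
  · intro i; rw [← hm, ← hl 0 i X dX fl0]; exact hfill 0 i
  · intro i; rw [← hm, ← hl 1 i V dV fl1]; exact hfill 1 i
  · intro i; rw [← hm, ← hl 2 i W dW fl2]; exact hfill 2 i

theorem result (n : ℕ) (hn : 0 < n) (hn5 : n ≤ 5) (a b : Fin 3 → ZMod n → ℕ)
    (hb : ∀ j i, 1 ≤ b j i) :
    ¬ LeftOrderable (SurgeryGroup n a b) ∧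
    ∀ (H : Type) [Group H], LeftOrderable H →
      ∀ f : SurgeryGroup n a b →* H, ∀ g, f g = 1 := by
  have h : ∀ (H : Type) [Group H], LeftOrderable H →
      ∀ f : SurgeryGroup n a b →* H, ∀ g, f g = 1 :=
    fun H _ hH f g => surgery_trivial hn hn5 a b hb hH f g
  exact ⟨not_lo h, h⟩

end Pool.Agent.Results.MP_3d425c_gt.TrefoilLiftSurgeries
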